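import Pool.Agent.helper3.T6.SpecH

set_option autoImplicit false

namespace Pool.Agent.T6

open Finset NumberField Pool.Agent.helper3.FT Pool.Agent.helper47.RA Pool.Agent.T5
open scoped nonZeroDivisors

variable {K : Type} [Field K] [NumberField K]

/-- two nonzero ideals with principal product are inverse classes -/
theorem HMU_inv (I J : (Ideal (𝓞 K))⁰) (α : 𝓞 K)
    (h : (I : Ideal (𝓞 K)) * (J : Ideal (𝓞 K)) = Ideal.span {α}) :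
    ClassGroup.mk0 J = (ClassGroup.mk0 I)⁻¹ := by
  have h1 : ClassGroup.mk0 (I * J) = 1 := by
    have h2 : ((I * J : (Ideal (𝓞 K))⁰) : Ideal (𝓞 K)) = Ideal.span {α} := h
    rw [← Subtype.coe_eta (I * J) (I * J).2, ClassGroup.mk0_eq_one_iff, h2]
    exact ⟨⟨α, rfl⟩⟩
  rw [map_mul] at h1
  exact eq_inv_of_mul_eq_one_right h1

/-- the cofactor of a nonzero element -/
theorem HMU_cof (I : (Ideal (𝓞 K))⁰) (α : 𝓞 K) (hα : α ∈ (I : Ideal (𝓞 K))) (h0 : α ≠ 0) :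
    ∃ J : (Ideal (𝓞 K))⁰, (I : Ideal (𝓞 K)) * (J : Ideal (𝓞 K)) = Ideal.span {α} := by
  obtain ⟨J, hJ⟩ := Ideal.dvd_span_singleton.2 hα
  have hJ0 : J ≠ ⊥ := by
    intro h
    rw [h, Ideal.mul_bot, Ideal.span_singleton_eq_bot] at hJ
    exact h0 hJ
  exact ⟨⟨J, mem_nonZeroDivisors_of_ne_zero hJ0⟩, hJ.symm⟩

theorem HMU_pos (I : (Ideal (𝓞 K))⁰) : 0 < Ideal.absNorm (I : Ideal (𝓞 K)) := by
  rw [Nat.pos_iff_ne_zero, Ne, Ideal.absNorm_eq_zero_iff]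
  exact nonZeroDivisors.coe_ne_zero I

theorem HMU_le (I : (Ideal (𝓞 K))⁰) : mu (ClassGroup.mk0 I) ≤ Ideal.absNorm (I : Ideal (𝓞 K)) :=
  Nat.sInf_le ⟨I, rfl, rfl⟩

theorem HMU_ex (c : ClassGroup (𝓞 K)) :
    ∃ I : (Ideal (𝓞 K))⁰, ClassGroup.mk0 I = c ∧ Ideal.absNorm (I : Ideal (𝓞 K)) = mu c := by
  obtain ⟨I, hI⟩ := ClassGroup.mk0_surjective c
  exact Nat.sInf_mem (s := {n : ℕ | ∃ I : (Ideal (𝓞 K))⁰, ClassGroup.mk0 I = c ∧
    Ideal.absNorm (I : Ideal (𝓞 K)) = n}) ⟨_, I, hI, rfl⟩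

theorem HMU_nn (Q : QF K) (hD : Q.D < 0) (α : 𝓞 K) :
    ((Ideal.absNorm (Ideal.span {α}) : ℕ) : ℝ) = Q.v₁ α ^ 2 := by
  rw [Q.hnorm, ← Q.himag hD, sq]

theorem HMU_inv_le (Q : QF K) (c : ClassGroup (𝓞 K)) : mu c⁻¹ ≤ mu c := by
  obtain ⟨I, hI, hIn⟩ := HMU_ex c
  have hb := Q.mul_bar (I : Ideal (𝓞 K))
  have hb0 : Q.bar (I : Ideal (𝓞 K)) ≠ ⊥ := by
    intro h
    have h1 := Q.absNorm_bar (I : Ideal (𝓞 K))
    rw [h, Ideal.absNorm_bot] at h1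
    exact (HMU_pos I).ne h1
  have h2 := HMU_inv I ⟨Q.bar (I : Ideal (𝓞 K)), mem_nonZeroDivisors_of_ne_zero hb0⟩ _ hb
  have h3 := HMU_le (⟨Q.bar (I : Ideal (𝓞 K)), mem_nonZeroDivisors_of_ne_zero hb0⟩ : (Ideal (𝓞 K))⁰)
  rw [h2, hI] at h3
  have h4 : Ideal.absNorm (Q.bar (I : Ideal (𝓞 K))) = mu c := by rw [Q.absNorm_bar, hIn]
  exact h3.trans h4.le

theorem HMU_inv_eq (Q : QF K) (c : ClassGroup (𝓞 K)) : mu c⁻¹ = mu c := by
  refine le_antisymm (HMU_inv_le Q c) ?_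
  have h := HMU_inv_le Q c⁻¹
  rwa [inv_inv] at h

theorem HMU_prod {I J A : Ideal (𝓞 K)} (h : I * J = A) :
    Ideal.absNorm I * Ideal.absNorm J = Ideal.absNorm A := by
  rw [← h, map_mul]

/-- inverse classes have a principal product -/
theorem HMU_gen (A J : (Ideal (𝓞 K))⁰) (h : ClassGroup.mk0 J = (ClassGroup.mk0 A)⁻¹) :
    ∃ α : 𝓞 K, α ≠ 0 ∧ (A : Ideal (𝓞 K)) * (J : Ideal (𝓞 K)) = Ideal.span {α} := by
  have h1 : ClassGroup.mk0 (A * J) = 1 := by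
    rw [map_mul, h, mul_inv_cancel]
  obtain ⟨B, hB, hB'⟩ : ∃ B : Ideal (𝓞 K), ∃ hB : B ∈ (Ideal (𝓞 K))⁰, A * J = ⟨B, hB⟩ :=
    ⟨_, (A * J).2, rfl⟩
  rw [hB', ClassGroup.mk0_eq_one_iff] at h1
  obtain ⟨α, hα⟩ := h1.principal
  have h2 : (A : Ideal (𝓞 K)) * (J : Ideal (𝓞 K)) = B := congrArg Subtype.val hB'
  have h3 : B = Ideal.span {α} := hα
  refine ⟨α, ?_, h2.trans h3⟩
  intro h0
  rw [h0, Ideal.span_singleton_eq_bot.2 rfl] at h3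
  exact nonZeroDivisors.ne_zero hB h3

theorem HMU : HMU_stmt := by
  intro K _ _ Q hD
  refine ⟨HMU_ex, HMU_le, ?_, ?_, ?_⟩
  · intro c
    refine ⟨?_, HMU_inv_eq Q c, ?_⟩
    · obtain ⟨I, -, hIn⟩ := HMU_ex c
      rw [← hIn]
      exact HMU_pos I
    · obtain ⟨I, hI⟩ := ClassGroup.mk0_surjective c⁻¹
      obtain ⟨e₁, e₂, hR⟩ := Pool.Agent.helper26.T5.AllL.aLBB K Q (I : Ideal (𝓞 K)) hD (nonZeroDivisors.coe_ne_zero I)
      obtain ⟨J, hJ⟩ := HMU_cof I e₁ hR.m1 hR.ne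
      have h1 := HMU_inv I J _ hJ
      rw [hI, inv_inv] at h1
      have h2 := HMU_le J
      rw [h1] at h2
      have h3 := HMU_prod hJ
      have h4 := HMU_nn Q hD e₁
      rw [← h3] at h4
      push_cast at h4
      have h5 : Q.v₁ e₁ ^ 2 ≤ √|(Q.D : ℝ)| * Ideal.absNorm (I : Ideal (𝓞 K)) := by
        refine le_trans ?_ hR.red
        rw [sq]
        exact mul_le_mul_of_nonneg_left hR.le (Q.v₁_nonneg _)
      rw [← h4] at h5
      have h6 : (0 : ℝ) < Ideal.absNorm (I : Ideal (𝓞 K)) := by exact_mod_cast HMU_pos I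
      have h7 : ((Ideal.absNorm (J : Ideal (𝓞 K)) : ℕ) : ℝ) ≤ √|(Q.D : ℝ)| := by
        refine le_of_mul_le_mul_left ?_ h6
        rw [mul_comm _ (√|(Q.D : ℝ)|)]
        exact h5
      exact le_trans (by exact_mod_cast h2) h7
  · intro I hI q hq hdvd
    obtain ⟨J, hJ⟩ := hdvd
    have hJ0 : J ≠ ⊥ := by
      intro h
      rw [h, Ideal.mul_bot] at hJ
      exact nonZeroDivisors.coe_ne_zero I hJ
    have hq0 : ((q : ℕ) : 𝓞 K) ≠ 0 := Nat.cast_ne_zero.2 hq.ne_zero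
    have hq0' : Ideal.span {((q : ℕ) : 𝓞 K)} ≠ ⊥ := by
      rwa [Ne, Ideal.span_singleton_eq_bot]
    have h1 : ClassGroup.mk0 I = ClassGroup.mk0 (⟨J, mem_nonZeroDivisors_of_ne_zero hJ0⟩ : (Ideal (𝓞 K))⁰) := by
      have h2 : I = (⟨_, mem_nonZeroDivisors_of_ne_zero hq0'⟩ : (Ideal (𝓞 K))⁰) *
          ⟨J, mem_nonZeroDivisors_of_ne_zero hJ0⟩ := Subtype.ext hJ
      have h3 : ClassGroup.mk0 (⟨_, mem_nonZeroDivisors_of_ne_zero hq0'⟩ : (Ideal (𝓞 K))⁰) = 1 := by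
        rw [ClassGroup.mk0_eq_one_iff]
        exact ⟨⟨_, rfl⟩⟩
      rw [h2, map_mul, h3, one_mul]
    have h4 := HMU_le (⟨J, mem_nonZeroDivisors_of_ne_zero hJ0⟩ : (Ideal (𝓞 K))⁰)
    rw [← h1, ← hI] at h4
    have h5 := HMU_prod hJ.symm
    have h6 := HMU_nn Q hD ((q : ℕ) : 𝓞 K)
    have h7 : Q.v₁ ((q : ℕ) : 𝓞 K) = q := by
      have h8 := Q.v₁_int q
      push_cast at h8
      rw [h8]
      exact abs_of_nonneg (Nat.cast_nonneg _)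
    rw [h7] at h6
    have h9 : Ideal.absNorm (Ideal.span {((q : ℕ) : 𝓞 K)}) = q ^ 2 := by exact_mod_cast h6
    rw [h9] at h5
    have h10 := hq.two_le
    have h11 := HMU_pos I
    have h12 : Ideal.absNorm (I : Ideal (𝓞 K)) ≤ Ideal.absNorm J := h4
    have h13 : 4 ≤ q ^ 2 := by nlinarith
    have h14 : 0 < Ideal.absNorm J := by omega
    nlinarith
  · intro I
    obtain ⟨A, hA, hA2⟩ : ∃ A : (Ideal (𝓞 K))⁰, (A : Ideal (𝓞 K)) = (I : Ideal (𝓞 K)) ^ 2 ∧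
        ClassGroup.mk0 A = ClassGroup.mk0 I ^ 2 := ⟨I ^ 2, rfl, map_pow _ _ _⟩
    have hAn : Ideal.absNorm (A : Ideal (𝓞 K)) = Ideal.absNorm (I : Ideal (𝓞 K)) ^ 2 := by
      rw [hA, map_pow]
    constructor
    · intro α hα h0
      obtain ⟨J, hJ⟩ := HMU_cof A α (by rw [hA]; exact hα) h0
      have h1 := HMU_inv A J _ hJ
      have h2 := HMU_le J
      rw [h1, HMU_inv_eq Q, hA2] at h2
      have h3 := HMU_prod hJ
      rw [hAn] at h3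
      rw [← HMU_nn Q hD, ← h3]
      push_cast
      exact mul_le_mul_of_nonneg_left (by exact_mod_cast h2) (by positivity)
    · obtain ⟨J, hJ, hJn⟩ := HMU_ex ((ClassGroup.mk0 A)⁻¹)
      obtain ⟨α, h0, hα⟩ := HMU_gen A J hJ
      refine ⟨α, ?_, h0, ?_⟩
      · rw [← hA]
        exact Ideal.dvd_span_singleton.1 (Dvd.intro _ hα)
      · have h3 := HMU_prod hα
        rw [hAn, hJn, HMU_inv_eq Q, hA2] at h3
        rw [← HMU_nn Q hD, ← h3]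
        push_cast
        rfl

end Pool.Agent.T6
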